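import Pool.Agent.K.MP_bc8dca_nt.C2

open Pool.Agent.P.MP_bc8dca_nt

theorem Pool.Agent.Results.MP_bc8dca_nt.RidoutBound.result :
    ENNReal.ofReal ((1 + 2 * Real.log 3 / Real.log (4 / 3)) / Real.log 2) ≤ gamma3 :=
  main_ridout
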